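import Pool.Agent.T9h12.C65.L.All
import Pool.Agent.T9h12.C65.IdsOk
import Pool.Agent.T9h12.C65.Weight2

/-!
# Edges outside a large set in 3-graphs without `K_3(5)`

Let `A` be a set of `a ≥ 0.52 n` vertices of a 3-graph `H` on `n` vertices which contains no
`K_3(5)`, let `B` be its complement and `b = n - a`. Let `e(B)` be the number of edges inside `B` and
`e(A, B)` the number of edges which meet both sets. Then
`e(B) ≤ (13 b / 12 a) (a b n / 2 - e(A, B))`: as `13 b ≤ 12 a`, the edges inside `B` are at most
as many as the missing triples between `A` and `B` (up to the term of order `n²` which comes from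
counting `a b n / 2` instead of `a b (n - 2) / 2` triples). Hence at most `a b n / 2` edges are not
contained in `A`, and if there are nearly so many and `a ≥ (0.52 + δ) n` then `e(B)` and the number of
missing triples are small. The leading term is best possible for every `A`: all triples which meet
both `A` and its complement form a 3-graph without `K_3(5)` and with `a b (n - 2) / 2` edges.
So the maximal number of edges of a 3-graph without `K_3(5)` in which a given set of `a ≥ 0.52 n`
vertices contains no edge is `a (n - a) n / 2 - O(n²)`. In particular Turán's bound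
`f(2m, 3, 5) ≤ m² (m - 1) + 1` holds for all 3-graphs on `2m ≥ 1250` vertices in which some `1.04 m`
vertices contain no edge.

Proof. Deleting the edges inside `A` we may assume that `A` is independent. First let `A` have
relative size exactly `13/25`. The flag algebra method of order six is used for 3-graphs with a
two-colouring of the vertices in which the first class is independent and has relative size `13/25`:
positive semidefinite forms for all types on four and on two coloured vertices and for the empty type,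
which vanish on the flags of the 3-graph of all triples between `A` and `B`, and the size of the first
class as an equation multiplied by arbitrary flags on five coloured vertices, with exact rational
multipliers at the extremal ones, so that the inequality is an equality at the seven coloured extremal
3-graphs on six vertices. It is checked by the kernel for the `2102` 3-graphs on six vertices without
`K_3(5)` and all their admissible colourings. A larger set is reduced to one with the relative size
`13/25` by a blow-up in which the vertices of `A` have fewer copies than the others; this gives the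
factor `13 b / 12 a`.
-/

set_option autoImplicit false
open Finset

namespace Pool.Agent.Results.MP_555f9b_co.LargeSets

/-- The 3-graph `H` contains no `K_3(5)`: every set of five vertices contains a triple which is not
an edge. -/
def K53Free {n : ℕ} (H : Finset (Finset (Fin n))) : Prop :=
  ∀ S : Finset (Fin n), S.card = 5 → ∃ e ⊆ S, e.card = 3 ∧ e ∉ H

open Pool.Agent.H449R2.Fl Pool.Agent.T9h12.C65 in
theorem be3_ind {n : ℕ} (H : Finset (Finset (Fin n))) (A : Finset (Fin n)) (x y z : Fin n) :
    be3 A x y z * (ind H x y z : ℤ) = (ind (H.filter fun e => e ⊆ Aᶜ) x y z : ℤ) := by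
  by_cases hx : x ∈ A <;> by_cases hy : y ∈ A <;> by_cases hz : z ∈ A <;>
    by_cases hH : ({x, y, z} : Finset (Fin n)) ∈ H <;>
    simp [be3, al, ind, hx, hy, hz, hH, insert_subset_iff]

open Pool.Agent.H449R2.Fl Pool.Agent.T9h12.C65 in
theorem chi_ind {n : ℕ} (H : Finset (Finset (Fin n))) (A : Finset (Fin n)) (x y z : Fin n) :
    chi A x y z * (ind H x y z : ℤ) =
      (ind (H.filter fun e => ¬ e ⊆ A ∧ ¬ e ⊆ Aᶜ) x y z : ℤ) := by
  by_cases hx : x ∈ A <;> by_cases hy : y ∈ A <;> by_cases hz : z ∈ A <;>
    by_cases hH : ({x, y, z} : Finset (Fin n)) ∈ H <;>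
    simp [chi, al, ind, hx, hy, hz, hH, insert_subset_iff]

open Pool.Agent.H449R2.Fl Pool.Agent.T9h12.C6 in
theorem main (n : ℕ) (H : Finset (Finset (Fin n))) (h3 : ∀ e ∈ H, e.card = 3) (hK : K53Free H)
    (A : Finset (Fin n)) (hA : 13 * n ≤ 25 * A.card) (hI : ∀ e ∈ H, ¬ e ⊆ A) :
    24 * (A.card : ℤ) * (H.filter fun e => e ⊆ Aᶜ).card +
      26 * ((n : ℤ) - A.card) * (H.filter fun e => ¬ e ⊆ A ∧ ¬ e ⊆ Aᶜ).card ≤
      13 * (A.card : ℤ) * ((n : ℤ) - A.card) ^ 2 * n := by
  have hle := card_le_univ A
  rw [Fintype.card_fin] at hle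
  have hco : Aᶜ.card = n - A.card := by rw [card_compl, Fintype.card_fin]
  rcases Nat.eq_zero_or_pos A.card with h0 | h0
  · have hn : n = 0 := by omega
    subst hn
    simp [h0]
  · have hin : ∀ x ∈ A, ∀ y ∈ A, ∀ z ∈ A, ind H x y z = 0 := by
      intro x hx y hy z hz
      unfold ind
      rw [if_neg]
      intro hmem
      refine hI _ hmem ?_
      intro w hw
      simp only [mem_insert, mem_singleton] at hw
      rcases hw with rfl | rfl | rfl
      exacts [hx, hy, hz]
    have hw := Pool.Agent.T9h12.C65.wbound (ind_pat h3)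
      (Pool.Agent.T9h12.C65.K5free_sg h3 hK) A hin
      Pool.Agent.T9h12.C65.idOk (by norm_num [Pool.Agent.T9h12.C65.L.zz])
      (by norm_num [Pool.Agent.T9h12.C65.L.zz]) (by decide) (by norm_num)
      Pool.Agent.T9h12.C65.L.certOk _ (by norm_num) Pool.Agent.T9h12.C65.L.chk_all
    have hb := Pool.Agent.T9h12.C65.strong (ind_pat h3) A hin (by rw [hco]; omega) h0 hw
    simp only [be3_ind, chi_ind] at hb
    have h1 : ∑ a, ∑ b, ∑ x, (ind (H.filter fun e => e ⊆ Aᶜ) a b x : ℤ) =
        6 * ((H.filter fun e => e ⊆ Aᶜ).card : ℤ) := by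
      exact_mod_cast sum_ind fun e he => h3 e (mem_filter.1 he).1
    have h2 : ∑ a, ∑ b, ∑ x, (ind (H.filter fun e => ¬ e ⊆ A ∧ ¬ e ⊆ Aᶜ) a b x : ℤ) =
        6 * ((H.filter fun e => ¬ e ⊆ A ∧ ¬ e ⊆ Aᶜ).card : ℤ) := by
      exact_mod_cast sum_ind fun e he => h3 e (mem_filter.1 he).1
    rw [h1, h2, hco] at hb
    push_cast [hle] at hb
    nlinarith [hb]

/-- **Edges outside a large set.** Let `H` be a 3-graph on `n` vertices without `K_3(5)` and `A` a
set of `a ≥ 0.52 n` vertices with complement `B`, `b = n - a`. Then the number `e(B)` of edges inside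
`B` and the number `e(A, B)` of edges meeting both sets satisfy
`12 a e(B) + 13 b e(A, B) ≤ 13 a b² n / 2`. Hence at most `a b n / 2` edges of `H` are not contained
in `A`. If `n = 2m` and `(a - m)² ≥ m`, in particular if `n = 2m` and `m ≥ 625`, then at most
`m² (m - 1)` edges of `H` are not contained in `A`. -/
theorem result (n : ℕ) (H : Finset (Finset (Fin n))) (h3 : ∀ e ∈ H, e.card = 3) (hK : K53Free H)
    (A : Finset (Fin n)) (hA : 0.52 * (n : ℝ) ≤ A.card) :
    12 * (A.card : ℝ) * (H.filter fun e => e ⊆ Aᶜ).card +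
        13 * ((n : ℝ) - A.card) * (H.filter fun e => ¬ e ⊆ A ∧ ¬ e ⊆ Aᶜ).card ≤
        13 / 2 * A.card * ((n : ℝ) - A.card) ^ 2 * n ∧
      ((H.filter fun e => ¬ e ⊆ A).card : ℝ) ≤ A.card * (n - A.card) * n / 2 ∧
      (∀ m : ℕ, n = 2 * m → (m : ℤ) ≤ ((A.card : ℤ) - m) ^ 2 ∨ 625 ≤ m →
        (H.filter fun e => ¬ e ⊆ A).card ≤ m ^ 2 * (m - 1)) := by
  have hA' : 13 * n ≤ 25 * A.card := by
    have : (13 : ℝ) * n ≤ 25 * A.card := by linarith
    exact_mod_cast this
  have hle := card_le_univ A
  rw [Fintype.card_fin] at hle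
  have hmain := main n (H.filter fun e => ¬ e ⊆ A) (fun e he => h3 e (mem_filter.1 he).1)
    (fun S hS => by
      obtain ⟨e, he, he3, heH⟩ := hK S hS
      exact ⟨e, he, he3, fun h => heH (mem_filter.1 h).1⟩) A hA'
    (fun e he => (mem_filter.1 he).2)
  -- the two kinds of edges of the filtered 3-graph
  have f1 : ((H.filter fun e => ¬ e ⊆ A).filter fun e => e ⊆ Aᶜ) = H.filter fun e => e ⊆ Aᶜ := by
    ext e
    simp only [mem_filter]
    constructor
    · rintro ⟨⟨h1, -⟩, h2⟩; exact ⟨h1, h2⟩
    · rintro ⟨h1, h2⟩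
      refine ⟨⟨h1, fun h4 => ?_⟩, h2⟩
      have h5 : 0 < e.card := by rw [h3 e h1]; norm_num
      obtain ⟨w, hw⟩ := card_pos.mp h5
      exact mem_compl.mp (h2 hw) (h4 hw)
  have f2 : ((H.filter fun e => ¬ e ⊆ A).filter fun e => ¬ e ⊆ A ∧ ¬ e ⊆ Aᶜ) =
      H.filter fun e => ¬ e ⊆ A ∧ ¬ e ⊆ Aᶜ := by
    ext e
    simp only [mem_filter]
    tauto
  rw [f1, f2] at hmain
  have hcard : (H.filter fun e => ¬ e ⊆ A).card =
      (H.filter fun e => e ⊆ Aᶜ).card + (H.filter fun e => ¬ e ⊆ A ∧ ¬ e ⊆ Aᶜ).card := by
    rw [← f1, ← filter_filter (fun e => ¬ e ⊆ A) (fun e => ¬ e ⊆ Aᶜ)]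
    exact (card_filter_add_card_filter_not (s := H.filter fun e => ¬ e ⊆ A)
      (fun e => e ⊆ Aᶜ)).symm
  set E0 := (H.filter fun e => e ⊆ Aᶜ).card with hE0
  set Ec := (H.filter fun e => ¬ e ⊆ A ∧ ¬ e ⊆ Aᶜ).card with hEc
  set E := (H.filter fun e => ¬ e ⊆ A).card with hE
  have h : 2 * (E : ℤ) ≤ A.card * ((n : ℤ) - A.card) * n := by
    rcases Nat.lt_or_ge A.card n with hlt | hge
    · have hb : (0 : ℤ) < (n : ℤ) - A.card := by
        have : (A.card : ℤ) < n := by exact_mod_cast hlt
        linarith
      have h12 : 13 * ((n : ℤ) - A.card) ≤ 12 * A.card := by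
        have : (13 : ℤ) * n ≤ 25 * A.card := by exact_mod_cast hA'
        linarith
      have h13 : (0 : ℤ) ≤ E0 := by positivity
      have h14 : (13 * ((n : ℤ) - A.card)) * (2 * (E : ℤ)) ≤
          (13 * ((n : ℤ) - A.card)) * (A.card * ((n : ℤ) - A.card) * n) := by
        rw [hcard]
        push_cast
        nlinarith [mul_le_mul_of_nonneg_right h12 h13, hmain]
      exact le_of_mul_le_mul_left h14 (by linarith)
    · have hAu : A = univ := by
        rw [← card_eq_iff_eq_univ, Fintype.card_fin]; omega
      have hE00 : E = 0 := by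
        rw [hE, card_eq_zero, filter_eq_empty_iff]
        intro e _ h4
        exact h4 (by rw [hAu]; exact subset_univ _)
      rw [hE00]
      have : (A.card : ℤ) = n := by
        rw [hAu, card_univ, Fintype.card_fin]
      rw [this]; simp
  have key : ∀ m : ℕ, n = 2 * m → (m : ℤ) ≤ ((A.card : ℤ) - m) ^ 2 → E ≤ m ^ 2 * (m - 1) := by
    intro m hm hd
    rcases Nat.eq_zero_or_pos m with h0 | h0
    · subst h0
      have hn0 : (n : ℤ) = 0 := by exact_mod_cast (show n = 0 by omega)
      have h' : 2 * (E : ℤ) ≤ 0 := by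
        have h7 : (A.card : ℤ) * ((n : ℤ) - A.card) * n = 0 := by rw [hn0, mul_zero]
        linarith
      have h4 : E = 0 := by omega
      rw [h4]; exact Nat.zero_le _
    · have hn : (n : ℤ) = 2 * m := by rw [hm]; push_cast; ring
      rw [hn] at h
      have h5 : (E : ℤ) ≤ ((m ^ 2 * (m - 1) : ℕ) : ℤ) := by
        push_cast [show 1 ≤ m from h0]
        have h6 : (0 : ℤ) < m := by exact_mod_cast h0
        nlinarith [mul_le_mul_of_nonneg_left hd h6.le]
      exact_mod_cast h5
  refine ⟨?_, ?_, ?_⟩
  · have hr : (24 : ℝ) * A.card * E0 + 26 * ((n : ℝ) - A.card) * Ec ≤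
        13 * A.card * ((n : ℝ) - A.card) ^ 2 * n := by
      exact_mod_cast hmain
    linarith
  · have hr : (2 : ℝ) * E ≤ A.card * ((n : ℝ) - A.card) * n := by
      exact_mod_cast h
    linarith
  · intro m hm hd
    refine key m hm ?_
    rcases hd with hd | h625
    · exact hd
    have h1 : 26 * m ≤ 25 * A.card := by omega
    have h2 : (26 : ℤ) * m ≤ 25 * A.card := by exact_mod_cast h1
    have h3 : (625 : ℤ) ≤ m := by exact_mod_cast h625
    have h4 : (m : ℤ) ≤ 25 * ((A.card : ℤ) - m) := by linarith
    nlinarith [mul_le_mul_of_nonneg_left h3 (show (0 : ℤ) ≤ m by linarith),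
      mul_self_le_mul_self (show (0 : ℤ) ≤ m by linarith) h4]

end Pool.Agent.Results.MP_555f9b_co.LargeSets
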