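import Pool.Agent.T9h10.LevelsExample

/-!
# Turán's bound `n²(n - 1)` for `K_5^3`, exactly, for level constructions

A level construction has four classes, every class is linearly ordered, every vertex `x` carries a
label `lab x`, the name of another class, and between vertices of different classes with the same
label there is an arbitrary tournament (`beats`). The triple `{x', x, y}`, where `x'` and `x` are in
the same class and `x' < x`, is missing if `y` is in the class `lab x`, or if `y` has the same label as
`x` and dominates `x`: `y` is above `x` in their class, or `y` is in another class and beats `x`. All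
other triples are edges. (If the labels pair the classes, this is the 3-graph of all triples which
meet both parts of a partition.)

Every level construction is `K_5^3`-free, and on `2 n` vertices it has at most `n²(n - 1)` edges. For
even `n` equality holds for all sequences of derangements of the classes as labels of the levels.
-/

set_option autoImplicit false

open Finset

namespace Pool.Agent.Results.MP_555f9b_co.LevelConstructions

/-- Every set of five vertices contains a triple which is not an edge of `G`. -/
def K5Free {n : ℕ} (G : Finset (Finset (Fin n))) : Prop :=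
  ∀ S : Finset (Fin n), S.card = 5 → ∃ e ∈ S.powersetCard 3, e ∉ G

/-- A level construction with four classes on `n` vertices: `cls x` is the class of `x`, the order of
`Fin n` orders every class, `lab x` is the label of `x`, and `beats` is used for vertices of different
classes with the same label. -/
structure LevelConstruction (n : ℕ) where
  cls : Fin n → Fin 4
  lab : Fin n → Fin 4
  lab_ne : ∀ x, lab x ≠ cls x
  beats : Fin n → Fin n → Prop
  total : ∀ x y, cls x ≠ cls y → lab x = lab y → beats x y ∨ beats y x

variable {n : ℕ}

/-- `y` dominates `x`: it is above `x` in the same class, or in another class and beats `x`. -/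
def LevelConstruction.Dominates (D : LevelConstruction n) (y x : Fin n) : Prop :=
  (D.cls y = D.cls x ∧ x < y) ∨ (D.cls y ≠ D.cls x ∧ D.beats y x)

/-- The missing triples: `{x', x, y}` with `x'` below `x` in the same class, and `y` in the class
`lab x` or with the same label as `x` and dominating `x`. -/
def LevelConstruction.Missing (D : LevelConstruction n) (t : Finset (Fin n)) : Prop :=
  ∃ x' x y : Fin n, D.cls x' = D.cls x ∧ x' < x ∧
    (D.cls y = D.lab x ∨ (D.lab y = D.lab x ∧ D.Dominates y x)) ∧ t = {x', x, y}

open scoped Classical in
/-- The 3-graph of the level construction: all triples which are not missing. -/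
noncomputable def LevelConstruction.graph (D : LevelConstruction n) : Finset (Finset (Fin n)) :=
  (univ.powersetCard 3).filter (fun t => ¬ D.Missing t)

/-- the same structure in the library -/
def LevelConstruction.toLib (D : LevelConstruction n) : Pool.Agent.T9h10.Levels 4 n :=
  ⟨D.cls, D.lab, D.lab_ne, D.beats, D.total⟩

theorem graph_eq (D : LevelConstruction n) : D.graph = D.toLib.graph := rfl

theorem free (D : LevelConstruction n) : K5Free D.graph := by
  classical
  intro S hS
  by_contra h
  push Not at h
  have h1 := D.toLib.card_le S (by
    intro t ht hm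
    have h3 : t.card = 3 := by
      obtain ⟨x', x, y, h1, h2, h3, rfl⟩ := hm
      exact D.toLib.triple_card h1 h2 h3
    have h2 := h t (mem_powersetCard.2 ⟨ht, h3⟩)
    rw [graph_eq] at h2
    exact (mem_filter.1 h2).2 hm)
  omega

theorem choose_three (n : ℕ) : 6 * (((2 * n).choose 3 : ℕ) : ℤ) = 4 * n * (2 * n - 1) * (n - 1) := by
  rcases Nat.lt_or_ge n 2 with h | h
  · interval_cases n <;> norm_num [Nat.choose]
  · have h1 : (2 * n).choose 3 * 6 = 2 * n * (2 * n - 1) * (2 * n - 2) := by
      have := Nat.descFactorial_eq_factorial_mul_choose (2 * n) 3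
      simp only [Nat.descFactorial, Nat.factorial] at this
      rw [show 2 * n - 0 = 2 * n by omega] at this
      nlinarith
    have h2 : (((2 * n).choose 3 * 6 : ℕ) : ℤ) = ((2 * n * (2 * n - 1) * (2 * n - 2) : ℕ) : ℤ) := by
      rw [h1]
    rw [Nat.cast_mul, Nat.cast_mul, Nat.cast_mul, Nat.cast_sub (by omega),
      Nat.cast_sub (by omega)] at h2
    push_cast at h2
    linarith

theorem bound (D : LevelConstruction (2 * n)) : D.graph.card ≤ n ^ 2 * (n - 1) := by
  have h1 := D.toLib.card_graph_add
  have h2 := D.toLib.miss_bound (n - 1)
  have h3 := choose_three n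
  rw [graph_eq]
  rcases Nat.eq_zero_or_pos n with h | h
  · subst h
    have h4 : (2 * 0).choose 3 = 0 := by decide
    omega
  · have h5 : (((n - 1 : ℕ)) : ℤ) = n - 1 := by omega
    zify at h1 h2 ⊢
    rw [h5] at h2 ⊢
    push_cast at h2
    nlinarith

/-- the level construction of a sequence of derangements -/
def perms {N : ℕ} (π : Fin N → Equiv.Perm (Fin 4)) (hπ : ∀ u i, π u i ≠ i) :
    LevelConstruction (N * 4) where
  cls x := x.modNat
  lab x := π x.divNat x.modNat
  lab_ne := (Pool.Agent.T9h10.ofPerm π hπ).lab_ne
  beats y x := x.divNat < y.divNat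
  total := (Pool.Agent.T9h10.ofPerm π hπ).total

/-- **Level constructions: Turán's bound for `K_5^3`.** -/
theorem result :
    -- level constructions on `2 n` vertices are `K_5^3`-free and satisfy Turán's bound
    (∀ (n : ℕ) (D : LevelConstruction (2 * n)), K5Free D.graph ∧
      D.graph.card ≤ n ^ 2 * (n - 1)) ∧
    -- for `4 N` vertices it is attained for every sequence of derangements of the classes
    (∀ (N : ℕ) (π : Fin N → Equiv.Perm (Fin 4)), (∀ u i, π u i ≠ i) →
      ∃ D : LevelConstruction (N * 4),
        (∀ x, D.cls x = x.modNat ∧ D.lab x = π x.divNat x.modNat) ∧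
        (∀ x y, D.beats y x ↔ x.divNat < y.divNat) ∧
        K5Free D.graph ∧ D.graph.card = (2 * N) ^ 2 * (2 * N - 1)) := by
  refine ⟨fun n D => ⟨free D, bound D⟩, fun N π hπ => ?_⟩
  refine ⟨perms π hπ, fun x => ⟨rfl, rfl⟩, fun x y => Iff.rfl, free _, ?_⟩
  have h1 := Pool.Agent.T9h10.ofPerm_miss π hπ
  have h2 := (Pool.Agent.T9h10.ofPerm π hπ).card_graph_add
  have h3 : (perms π hπ).graph = (Pool.Agent.T9h10.ofPerm π hπ).graph := rfl
  rw [h3]
  have h4 := choose_three (2 * N)
  have h5 : 2 * (2 * N) = N * 4 := by ring
  rw [h5] at h4
  rcases Nat.eq_zero_or_pos N with h | h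
  · subst h
    have h6 : (0 * 4).choose 3 = 0 := by decide
    omega
  · have h6 : (((N - 1 : ℕ)) : ℤ) = N - 1 := by omega
    have h7 : (((2 * N - 1 : ℕ)) : ℤ) = 2 * N - 1 := by omega
    zify at h1 h2 ⊢
    rw [h6, h7] at h1
    rw [h7]
    push_cast at h4
    nlinarith

end Pool.Agent.Results.MP_555f9b_co.LevelConstructions
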